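import Pool.Agent.H992.SF.GDefs

/-!
# SG/BDT: translation of the bounds (MP_a28cf0_nt)
-/

set_option autoImplicit false
open MeasureTheory Filter Topology Complex ProbabilityTheory
open scoped ContDiff ENNReal

namespace Pool.Agent.H161.SG

open Pool.Agent.W745.RW (TF)
open Pool.Agent.N661.BR (MW lin)
open Pool.Agent.N814.BHM (P mass)
open Pool.Agent.N814.BHASM (Hyp)
open Pool.Agent.H992.LB (eγ eX SX val fs val_fs)
open Pool.Agent.H992.SF

noncomputable section

/-- a family of finitely supported functions is given by lists of points and coefficients -/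
lemma repr_fs {d n : ℕ} (U : Fin d → Set ℂ) (z : Fin d → ℂ) (hz : ∀ i, z i ∈ U i)
    (τ : Fin n → Fin d → ℂ →₀ ℝ) (hin : ∀ m, In U (τ m)) :
    ∃ (k : ℕ) (w : Fin d → Fin k → ℂ) (t : Fin n → Fin d → Fin k → ℝ),
      (∀ i j, w i j ∈ U i) ∧ (∀ m i, τ m i = 0 → t m i = 0) ∧
      ∀ m i, fs (w i) (t m i) = τ m i := by
  classical
  let J : Finset ℂ := Finset.univ.biUnion fun m => Finset.univ.biUnion fun i => (τ m i).support
  refine ⟨J.card, fun i j => if ((J.equivFin.symm j : J) : ℂ) ∈ U i then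
      ((J.equivFin.symm j : J) : ℂ) else z i,
    fun m i j => τ m i ((J.equivFin.symm j : J) : ℂ), fun i j => ?_, fun m i h => ?_,
    fun m i => ?_⟩
  · show (if ((J.equivFin.symm j : J) : ℂ) ∈ U i then
      ((J.equivFin.symm j : J) : ℂ) else z i) ∈ U i
    split_ifs with h
    · exact h
    · exact hz i
  · funext j
    show τ m i _ = 0
    rw [h]
    rfl
  · have h1 : (τ m i).support ⊆ J := by
      intro x hx
      exact Finset.mem_biUnion.2 ⟨m, Finset.mem_univ _, Finset.mem_biUnion.2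
        ⟨i, Finset.mem_univ _, hx⟩⟩
    have h2 : ∀ x : ℂ, Finsupp.single (if x ∈ U i then x else z i) (τ m i x) =
        Finsupp.single x (τ m i x) := by
      intro x
      split_ifs with h
      · rfl
      · have h0 : τ m i x = 0 := by
          by_contra h3
          exact h (hin m i (Finsupp.mem_support_iff.2 h3))
        rw [h0, Finsupp.single_zero, Finsupp.single_zero]
    unfold fs
    simp only [h2]
    rw [Equiv.sum_comp J.equivFin.symm (fun x : J => Finsupp.single (x : ℂ) (τ m i (x : ℂ))),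
      Finset.sum_coe_sort J fun x => Finsupp.single x (τ m i x),
      ← Finset.sum_subset h1 (fun x _ hx => by
        rw [Finsupp.notMem_support_iff.1 hx, Finsupp.single_zero])]
    exact Finsupp.sum_single (τ m i)

/-- **SG/BDT** -/
theorem bdt (h : S_BRIDGE2) : S_BDT := by
  intro d Ω lam u H hd γ hγ U hU A hJ
  obtain ⟨C, hC⟩ := hJ
  have hM : 0 < mass Ω := Pool.Agent.N814.BHASM.mpos (H ⟨0, hd⟩)
  choose z hz using hU
  refine ⟨C / mass Ω ^ 2, fun n c τ hon hin ε hε => ?_⟩
  obtain ⟨k, w, t, hw, ht0, hfs⟩ := repr_fs U z hz τ hin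
  have e1 : ∀ᶠ l in atTop, ∀ m, jChar Ω (fun _ => 1) (fun i => lam i l) (fun i => u i l) w (t m) =
      (mass Ω : ℂ) * ∫ p, eXJ (fun i => lam i l) (fun i => u i l) (τ m) p ∂(P Ω) := by
    refine Filter.eventually_all.2 fun m => ?_
    filter_upwards [h d Ω lam u H hd (fun _ => 1) (Or.inr rfl) k w (t m)] with l hl
    rw [hl]
    congr 1
    refine integral_congr_ae (Eventually.of_forall fun p => ?_)
    have e : (fun i => fs (w i) (t m i)) = τ m := funext fun i => hfs m i
    simp only [e, Complex.ofReal_one, one_mul]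
  have e2 : ∀ F : Fin d → MW, ∀ m,
      Complex.exp (I * ((∑ i, lin (w i) (t m i) (F i) : ℝ) : ℂ)) = eJ (τ m) F := by
    intro F m
    unfold eJ
    rw [Complex.ofReal_sum, Finset.mul_sum, Complex.exp_sum]
    refine Finset.prod_congr rfl fun i _ => ?_
    rw [← hfs m i, eγ, val_fs]
  filter_upwards [hC n k w t c hw (fun m i hi => ht0 m i (hon m i hi)) (ε * mass Ω ^ 2)
    (by positivity), e1] with l hl hl2
  simp_rw [hl2, e2] at hl
  have e3 : ∑ m, c m * ((mass Ω : ℂ) *
      ∫ p, eXJ (fun i => lam i l) (fun i => u i l) (τ m) p ∂(P Ω)) =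
      (mass Ω : ℂ) * ∑ m, c m * ∫ p, eXJ (fun i => lam i l) (fun i => u i l) (τ m) p ∂(P Ω) := by
    rw [Finset.mul_sum]
    exact Finset.sum_congr rfl fun m _ => by ring
  rw [e3, norm_mul, Complex.norm_real, Real.norm_eq_abs, abs_of_pos hM, mul_pow] at hl
  have hM2 : 0 < mass Ω ^ 2 := by positivity
  have e4 : ‖∑ m, c m * ∫ p, eXJ (fun i => lam i l) (fun i => u i l) (τ m) p ∂(P Ω)‖ ^ 2 ≤
      (C * (∫ F : Fin d → MW, ‖∑ m, c m * eJ (τ m) F‖ ^ 2 ∂(Measure.pi fun _ => γ)) +
        ε * mass Ω ^ 2) / mass Ω ^ 2 := by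
    rw [le_div_iff₀ hM2, mul_comm]
    exact hl
  refine e4.trans (le_of_eq ?_)
  show _ = C / mass Ω ^ 2 * (∫ F : Fin d → MW, ‖∑ m, c m * eJ (τ m) F‖ ^ 2
    ∂(Measure.pi fun _ => γ)) + ε
  field_simp

end

end Pool.Agent.H161.SG
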